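import Mathlib
import Pool.Agent.L7h19.FD.Stm2

/-!
# Project FD: the exponents of the curve as sums over the factors (`S_DZD`)

Adaptation of `Pool.Agent.L7h78.FT.s_DZ2` (helper78).
-/

set_option autoImplicit false
set_option linter.unusedSectionVars false

namespace Pool.Agent.L7h50.FD

open Finset Polynomial Pool.Agent.W262.RK Pool.Agent.W307.RT Pool.Agent.L7h19.RP
open Pool.Agent.L7h19.FD
open Pool.Agent.L7h19.IS (om)
open Pool.Agent.L7h19.FT (sp)

variable {J : Type} [Fintype J] [DecidableEq J]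

/-- the primes dividing `n` with `P` -/
def pf (P : ℕ → Prop) [DecidablePred P] (n : ℤ) : Finset ℕ := n.natAbs.primeFactors.filter P

/-- the bad primes -/
def Bz (a : Fin 4 → ℤ) (z : ℕ) : Finset ℕ :=
  Icc 1 z ∪ univ.biUnion (fun c => (a c).natAbs.primeFactors)

lemma card_Bz (a : Fin 4 → ℤ) (z : ℕ) :
    (Bz a z).card ≤ z + ∑ c, (a c).natAbs.primeFactors.card := by
  unfold Bz
  refine (card_union_le _ _).trans (add_le_add ?_ card_biUnion_le)
  rw [Nat.card_Icc]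
  omega

/-- the indices of class `c` -/
def fcl (cls : J → Fin 4) (c : Fin 4) : Finset J := univ.filter (fun j => cls j = c)

lemma Fv_dvd (cls : J → Fin 4) (a : Fin 4 → ℤ) (x : J → ℤ) (c : Fin 4) {p : ℕ} (hp : p.Prime) :
    (p : ℤ) ∣ Fv cls a x c ↔ (p : ℤ) ∣ a c ∨ ∃ j ∈ fcl cls c, (p : ℤ) ∣ x j := by
  have hpi : Prime (p : ℤ) := Nat.prime_iff_prime_int.1 hp
  unfold Fv
  rw [hpi.dvd_mul, hpi.dvd_finsetProd_iff]
  rfl

lemma mem_pf {P : ℕ → Prop} [DecidablePred P] {n : ℤ} (hn : n ≠ 0) {p : ℕ} :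
    p ∈ pf P n ↔ p.Prime ∧ (p : ℤ) ∣ n ∧ P p := by
  unfold pf
  rw [mem_filter, Nat.mem_primeFactors, Int.natCast_dvd]
  constructor
  · rintro ⟨⟨h1, h2, _⟩, h3⟩
    exact ⟨h1, h2, h3⟩
  · rintro ⟨h1, h2, h3⟩
    exact ⟨⟨h1, h2, Int.natAbs_ne_zero.2 hn⟩, h3⟩

theorem cnt_le (cls : J → Fin 4) (a : Fin 4 → ℤ) (x : J → ℤ) (z : ℕ) (c : Fin 4)
    (hG : Gd z x) (ha : ∀ c, a c ≠ 0) (P : ℕ → Prop) [DecidablePred P] :
    (pf P (Fv cls a x c)).card ≤
      ∑ j ∈ fcl cls c, (pf P (x j)).card + (z + ∑ c, (a c).natAbs.primeFactors.card) := by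
  have hF : Fv cls a x c ≠ 0 := mul_ne_zero (ha c) (prod_ne_zero_iff.2 fun j _ => hG.1 j)
  have h1 : pf P (Fv cls a x c) ⊆ (fcl cls c).biUnion (fun j => pf P (x j)) ∪ Bz a z := by
    intro p hp
    rw [mem_pf hF] at hp
    obtain ⟨hp1, hp2, hp3⟩ := hp
    rw [mem_union]
    rcases (Fv_dvd cls a x c hp1).1 hp2 with h | ⟨j, hj, h⟩
    · right
      unfold Bz
      rw [mem_union, mem_biUnion]
      right
      refine ⟨c, mem_univ _, ?_⟩
      rw [Nat.mem_primeFactors]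
      exact ⟨hp1, Int.natCast_dvd.1 h, Int.natAbs_ne_zero.2 (ha c)⟩
    · left
      rw [mem_biUnion]
      exact ⟨j, hj, (mem_pf (hG.1 j)).2 ⟨hp1, h, hp3⟩⟩
  exact (card_le_card h1).trans ((card_union_le _ _).trans
    (add_le_add card_biUnion_le (card_Bz a z)))

theorem le_cnt (cls : J → Fin 4) (a : Fin 4 → ℤ) (x : J → ℤ) (z : ℕ) (c : Fin 4)
    (hG : Gd z x) (ha : ∀ c, a c ≠ 0) (P : ℕ → Prop) [DecidablePred P] :
    ∑ j ∈ fcl cls c, (pf P (x j)).card ≤ (pf P (Fv cls a x c)).card +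
      (fcl cls c).card * (z + ∑ c, (a c).natAbs.primeFactors.card) := by
  have hF : Fv cls a x c ≠ 0 := mul_ne_zero (ha c) (prod_ne_zero_iff.2 fun j _ => hG.1 j)
  have h1 : ∀ j ∈ fcl cls c, (pf P (x j)).card ≤ (pf P (x j) \ Bz a z).card +
      (z + ∑ c, (a c).natAbs.primeFactors.card) := by
    intro j _
    have h2 : pf P (x j) ⊆ (pf P (x j) \ Bz a z) ∪ Bz a z := by
      intro p hp
      rw [mem_union, mem_sdiff]
      by_cases h : p ∈ Bz a z
      · exact Or.inr h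
      · exact Or.inl ⟨hp, h⟩
    exact (card_le_card h2).trans ((card_union_le _ _).trans
      (Nat.add_le_add_left (card_Bz a z) _))
  refine (sum_le_sum h1).trans ?_
  rw [sum_add_distrib, sum_const, smul_eq_mul]
  refine Nat.add_le_add_right ?_ _
  rw [← card_biUnion]
  · refine card_le_card ?_
    intro p hp
    rw [mem_biUnion] at hp
    obtain ⟨j, hj, hp⟩ := hp
    rw [mem_sdiff, mem_pf (hG.1 j)] at hp
    rw [mem_pf hF]
    exact ⟨hp.1.1, (Fv_dvd cls a x c hp.1.1).2 (Or.inr ⟨j, hj, hp.1.2.1⟩), hp.1.2.2⟩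
  · intro i _ j _ hij
    rw [Function.onFun, Finset.disjoint_left]
    intro p hp hq
    rw [mem_sdiff, mem_pf (hG.1 i)] at hp
    rw [mem_sdiff, mem_pf (hG.1 j)] at hq
    refine hG.2 p hp.1.1 ?_ i j hij ⟨hp.1.2.1, hq.1.2.1⟩
    by_contra hz
    apply hp.2
    unfold Bz
    rw [mem_union, mem_Icc]
    exact Or.inl ⟨hp.1.1.one_lt.le, by omega⟩

lemma om_pf (n : ℤ) : om n = (pf (fun _ => True) n).card := by
  unfold om pf
  rw [filter_true]

lemma sp_pf (κ n : ℤ) : sp κ n = (pf (fun p => p ≠ 2 ∧ jacobiSym κ p = 1) n).card := rfl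

lemma fcl_disj (cls : J → Fin 4) {c d : Fin 4} (h : c ≠ d) : Disjoint (fcl cls c) (fcl cls d) := by
  rw [Finset.disjoint_left]
  intro j hj hj'
  exact h ((mem_filter.1 hj).2.symm.trans (mem_filter.1 hj').2)

lemma fcl_add (cls : J → Fin 4) {c c1 c2 c3 : Fin 4} (h1 : c1 ≠ c) (h2 : c2 ≠ c) (h3 : c3 ≠ c)
    (h12 : c1 ≠ c2) (h13 : c1 ≠ c3) (h23 : c2 ≠ c3)
    (f : J → ℤ) : ∑ j ∈ univ.filter (fun j => cls j ≠ c), f j =
      ∑ j ∈ fcl cls c1, f j + ∑ j ∈ fcl cls c2, f j + ∑ j ∈ fcl cls c3, f j := by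
  have hd : Disjoint (fcl cls c1 ∪ fcl cls c2) (fcl cls c3) := by
    rw [disjoint_union_left]
    exact ⟨fcl_disj cls h13, fcl_disj cls h23⟩
  rw [← sum_union (fcl_disj cls h12), ← sum_union hd]
  refine sum_congr ?_ fun _ _ => rfl
  ext j
  unfold fcl
  rw [mem_union, mem_union, mem_filter, mem_filter, mem_filter, mem_filter]
  constructor
  · rintro ⟨_, h⟩
    have h4 : cls j = c1 ∨ cls j = c2 ∨ cls j = c3 := by
      generalize cls j = d at h
      clear hd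
      revert h h1 h2 h3 h12 h13 h23
      revert c c1 c2 c3 d
      decide
    rcases h4 with h4 | h4 | h4
    · exact Or.inl (Or.inl ⟨mem_univ _, h4⟩)
    · exact Or.inl (Or.inr ⟨mem_univ _, h4⟩)
    · exact Or.inr ⟨mem_univ _, h4⟩
  · rintro ((⟨_, h⟩ | ⟨_, h⟩) | ⟨_, h⟩)
    · exact ⟨mem_univ _, by rw [h]; exact h1⟩
    · exact ⟨mem_univ _, by rw [h]; exact h2⟩
    · exact ⟨mem_univ _, by rw [h]; exact h3⟩

theorem main (cls : J → Fin 4) (a : Fin 4 → ℤ) (x : J → ℤ) (z : ℕ) (c c1 c2 : Fin 4)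
    (h1 : c1 ≠ c) (h2 : c2 ≠ c) (h3 : (3 : Fin 4) ≠ c) (h12 : c1 ≠ c2) (h13 : c1 ≠ 3) (h23 : c2 ≠ 3)
    (κ κ' : ℤ) (hG : Gd z x) (ha : ∀ c, a c ≠ 0) :
    |((sp κ (Fv cls a x c) : ℤ) + sp κ' (Fv cls a x 3) - om (Fv cls a x c1) -
        om (Fv cls a x c2) - om (Fv cls a x 3)) -
    (∑ j ∈ univ.filter (fun j => cls j = c), (sp κ (x j) : ℤ) +
      ∑ j ∈ univ.filter (fun j => cls j = 3), (sp κ' (x j) : ℤ) -
      ∑ j ∈ univ.filter (fun j => cls j ≠ c), (om (x j) : ℤ))| ≤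
    (((2 * (Fintype.card J + 5) * (z + ∑ c, (a c).natAbs.primeFactors.card) : ℕ)) : ℤ) := by
  rw [fcl_add cls h1 h2 h3 h12 h13 h23]
  set W := z + ∑ c, (a c).natAbs.primeFactors.card with hW
  have a1 := cnt_le cls a x z c hG ha (fun p => p ≠ 2 ∧ jacobiSym κ p = 1)
  have a2 := le_cnt cls a x z c hG ha (fun p => p ≠ 2 ∧ jacobiSym κ p = 1)
  have a3 := cnt_le cls a x z 3 hG ha (fun p => p ≠ 2 ∧ jacobiSym κ' p = 1)
  have a4 := le_cnt cls a x z 3 hG ha (fun p => p ≠ 2 ∧ jacobiSym κ' p = 1)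
  have b1 := cnt_le cls a x z c1 hG ha (fun _ => True)
  have b2 := le_cnt cls a x z c1 hG ha (fun _ => True)
  have d1 := cnt_le cls a x z c2 hG ha (fun _ => True)
  have d2 := le_cnt cls a x z c2 hG ha (fun _ => True)
  have e1 := cnt_le cls a x z 3 hG ha (fun _ => True)
  have e2 := le_cnt cls a x z 3 hG ha (fun _ => True)
  rw [← hW] at a1 a2 a3 a4 b1 b2 d1 d2 e1 e2
  simp only [← sp_pf] at a1 a2 a3 a4
  simp only [← om_pf] at b1 b2 d1 d2 e1 e2
  have hn : ∀ c', (fcl cls c').card ≤ Fintype.card J := fun c' => card_le_univ _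
  have k1 : (fcl cls c).card * W ≤ Fintype.card J * W := Nat.mul_le_mul_right _ (hn c)
  have k2 : (fcl cls 3).card * W ≤ Fintype.card J * W := Nat.mul_le_mul_right _ (hn 3)
  have k3 : (fcl cls c1).card * W + (fcl cls c2).card * W + (fcl cls 3).card * W ≤
      Fintype.card J * W := by
    rw [← add_mul, ← add_mul]
    refine Nat.mul_le_mul_right _ ?_
    rw [← card_union_of_disjoint (fcl_disj cls h12), ← card_union_of_disjoint]
    · exact card_le_univ _
    · rw [disjoint_union_left]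
      exact ⟨fcl_disj cls h13, fcl_disj cls h23⟩
  have e3 : 2 * (Fintype.card J + 5) * W = 2 * (Fintype.card J * W) + 10 * W := by ring
  rw [e3]
  have f0 : univ.filter (fun j => cls j = c) = fcl cls c := rfl
  have f3 : univ.filter (fun j => cls j = 3) = fcl cls 3 := rfl
  rw [f0, f3]
  have g0 : ∑ j ∈ fcl cls c, (sp κ (x j) : ℤ) = ((∑ j ∈ fcl cls c, sp κ (x j) : ℕ) : ℤ) := by
    push_cast; rfl
  have g3 : ∑ j ∈ fcl cls 3, (sp κ' (x j) : ℤ) = ((∑ j ∈ fcl cls 3, sp κ' (x j) : ℕ) : ℤ) := by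
    push_cast; rfl
  have g1 : ∑ j ∈ fcl cls c1, (om (x j) : ℤ) = ((∑ j ∈ fcl cls c1, om (x j) : ℕ) : ℤ) := by
    push_cast; rfl
  have g2 : ∑ j ∈ fcl cls c2, (om (x j) : ℤ) = ((∑ j ∈ fcl cls c2, om (x j) : ℕ) : ℤ) := by
    push_cast; rfl
  have g4 : ∑ j ∈ fcl cls 3, (om (x j) : ℤ) = ((∑ j ∈ fcl cls 3, om (x j) : ℕ) : ℤ) := by
    push_cast; rfl
  rw [g0, g1, g2, g3, g4]
  generalize (fcl cls c).card * W = u0 at *
  generalize (fcl cls c1).card * W = u1 at *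
  generalize (fcl cls c2).card * W = u2 at *
  generalize (fcl cls 3).card * W = u4 at *
  generalize Fintype.card J * W = u3 at *
  rw [abs_le]
  constructor <;> omega

/-- **S_DZD** -/
theorem s_DZD : S_DZD := by
  intro J _ _ cls a x D A B z c _ hG ha hA hB hAB hD
  have hc : c = 0 ∨ c = 1 ∨ c = 2 := by
    revert c
    decide
  unfold dz
  rcases hc with rfl | rfl | rfl
  · have h := main cls a x z 0 1 2 (by decide) (by decide) (by decide) (by decide) (by decide)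
      (by decide) (kz D A B 0) (kd A B 0) hG ha
    rw [← hA, ← hB, ← hAB, ← hD] at h
    rw [if_pos rfl]
    exact h
  · have h := main cls a x z 1 0 2 (by decide) (by decide) (by decide) (by decide) (by decide)
      (by decide) (kz D A B 1) (kd A B 1) hG ha
    rw [← hA, ← hB, ← hAB, ← hD] at h
    rw [if_neg (by decide), if_pos rfl]
    exact h
  · have h := main cls a x z 2 0 1 (by decide) (by decide) (by decide) (by decide) (by decide)
      (by decide) (kz D A B 2) (kd A B 2) hG ha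
    rw [← hA, ← hB, ← hAB, ← hD] at h
    rw [if_neg (by decide), if_neg (by decide)]
    exact h

end Pool.Agent.L7h50.FD
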