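import Mathlib
import Pool.Agent.L7h19.FD.Stm
import Pool.Agent.L7h78.FT.Grr

/-!
# Project FD: growth of the sums over the residue classes and the signs (`S_GRD`)

Adaptation of `Pool.Agent.L7h78.FT.s_GRR` (helper78).
-/

set_option autoImplicit false
set_option linter.unusedSectionVars false

namespace Pool.Agent.L7h50.FD

open Finset Polynomial Pool.Agent.W262.RK Pool.Agent.L7h19.RP Pool.Agent.L7h19.FD
open Pool.Agent.L7h19.RH (Q0)
open Pool.Agent.H474R2.PG (rho)
open Pool.Agent.L7h78.FT (TF tf mem_Q0)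

/-- the sum over the subsets of `B` of a function of the intersection with `A` -/
theorem sum_inter {A B : Finset ℕ} (h : A ⊆ B) (g : Finset ℕ → ℝ) :
    (1 / 2) ^ B.card * ∑ N ∈ B.powerset, g (N ∩ A) =
      (1 / 2) ^ A.card * ∑ N ∈ A.powerset, g N := by
  classical
  have h1 : ∑ N ∈ B.powerset, g (N ∩ A) =
      ∑ X ∈ A.powerset ×ˢ (B \ A).powerset, g X.1 := by
    refine Finset.sum_nbij' (fun N => (N ∩ A, N \ A)) (fun X => X.1 ∪ X.2) ?_ ?_ ?_ ?_ ?_
    · intro N hN
      rw [mem_powerset] at hN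
      rw [mem_product, mem_powerset, mem_powerset]
      exact ⟨inter_subset_right, sdiff_subset_sdiff hN le_rfl⟩
    · intro X hX
      rw [mem_product, mem_powerset, mem_powerset] at hX
      rw [mem_powerset]
      exact union_subset (hX.1.trans h) (hX.2.trans sdiff_subset)
    · intro N _
      ext p
      simp only [mem_union, mem_inter, mem_sdiff]
      tauto
    · intro X hX
      rw [mem_product, mem_powerset, mem_powerset] at hX
      obtain ⟨X1, X2⟩ := X
      simp only at hX ⊢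
      have hd : ∀ p ∈ X2, p ∉ A := fun p hp => (mem_sdiff.1 (hX.2 hp)).2
      refine Prod.ext ?_ ?_
      · ext p
        simp only [mem_union, mem_inter]
        constructor
        · rintro ⟨h2 | h2, h3⟩
          · exact h2
          · exact absurd h3 (hd p h2)
        · intro h2
          exact ⟨Or.inl h2, hX.1 h2⟩
      · ext p
        simp only [mem_union, mem_sdiff]
        constructor
        · rintro ⟨h2 | h2, h3⟩
          · exact absurd (hX.1 h2) h3
          · exact h2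
        · intro h2
          exact ⟨Or.inr h2, hd p h2⟩
    · intro N _
      rfl
  rw [h1, sum_product]
  simp only [sum_const, card_powerset, nsmul_eq_mul]
  rw [← mul_sum]
  have h2 : B.card = A.card + (B \ A).card := by
    have := card_sdiff_add_card_eq_card h
    omega
  rw [h2, pow_add]
  have h3 : ((1 : ℝ) / 2) ^ (B \ A).card * ((2 ^ (B \ A).card : ℕ) : ℝ) = 1 := by
    push_cast
    rw [← mul_pow]
    norm_num
  calc ((1 : ℝ) / 2) ^ A.card * (1 / 2) ^ (B \ A).card *
        (((2 ^ (B \ A).card : ℕ) : ℝ) * ∑ i ∈ A.powerset, g i)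
      = (1 / 2) ^ A.card * (((1 / 2) ^ (B \ A).card * ((2 ^ (B \ A).card : ℕ) : ℝ)) *
        ∑ i ∈ A.powerset, g i) := by ring
    _ = _ := by rw [h3, one_mul]

variable {J : Type} [Fintype J] [DecidableEq J]

lemma mem_P3 (cls : J → Fin 4) {s : J → ℕ} (hs : ∀ j, s j ≠ 0) (p : ℕ) :
    p ∈ P3 cls s ↔ p.Prime ∧ ∃ j, cls j = 3 ∧ p ∣ s j := by
  unfold P3
  rw [Nat.mem_primeFactors]
  constructor
  · rintro ⟨hp, hd, _⟩
    obtain ⟨j, hj, hjd⟩ := (hp.prime.dvd_finsetProd_iff _).1 hd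
    exact ⟨hp, j, (mem_filter.1 hj).2, hjd⟩
  · rintro ⟨hp, j, hj, hjd⟩
    refine ⟨hp, hjd.trans (dvd_prod_of_mem _ (mem_filter.2 ⟨mem_univ _, hj⟩)), ?_⟩
    exact Finset.prod_ne_zero_iff.2 fun l _ => hs l

/-- **S_GRD** -/
theorem s_GRD : S_GRD := by
  intro J _ _ cls f κ c z y b Φ hz hb hρ hΦ0 hΦ s e hT
  classical
  have T := tf hT
  have hprod : ∏ j, (s j * e j) = (∏ j, s j) * ∏ j, e j := Finset.prod_mul_distrib
  set m := ∏ j, s j with hm
  have hm0 : m ≠ 0 := prod_ne_zero_iff.2 fun j _ => T.s0 j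
  set n := ∑ j, (e j).primeFactors.card with hn
  have hse0 : ∀ j, s j * e j ≠ 0 := fun j => mul_ne_zero (T.s0 j) (T.e0 j)
  -- the patterns
  have hnF : ∀ (t : ℤ) (N : Finset ℕ),
      (fun i => nF cls κ (fun j => s j * e j) t N i ∩ Q0 s) = nF cls κ s t (N ∩ P3 cls s) := by
    intro t N
    funext i
    ext p
    unfold nF
    rw [mem_inter, mem_filter, mem_filter, mem_Q0 T.s0, mem_Q0 hse0]
    constructor
    · rintro ⟨⟨⟨h1, h2⟩, j, h3, h4⟩, h5, h6⟩
      have h7 : p ∣ s j := (T.iff_s p h5 h6 j).1 h3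
      refine ⟨⟨h5, h6⟩, j, h7, ?_⟩
      rcases h4 with h4 | ⟨h4, h8⟩
      · exact Or.inl h4
      · refine Or.inr ⟨h4, h8.trans ?_⟩
        rw [mem_inter, mem_P3 cls T.s0]
        constructor
        · intro h9 h10
          exact h9 h10.1
        · intro h9 h10
          exact h9 ⟨h10, h5, j, h4, h7⟩
    · rintro ⟨⟨h5, h6⟩, j, h3, h4⟩
      refine ⟨⟨⟨h5, ?_⟩, j, h3.trans (Dvd.intro _ rfl), ?_⟩, h5, h6⟩
      · rw [hprod]
        exact h6.trans (Dvd.intro _ rfl)
      · rcases h4 with h4 | ⟨h4, h8⟩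
        · exact Or.inl h4
        · refine Or.inr ⟨h4, h8.trans ?_⟩
          rw [mem_inter, mem_P3 cls T.s0]
          constructor
          · intro h9 h10
            exact h9 ⟨h10, h5, j, h4, h3⟩
          · intro h9 h10
            exact h9 h10.1
  have hmod : ∀ (t t' : ℤ) (N : Finset ℕ), t ≡ t' [ZMOD m] →
      nF cls κ s t N = nF cls κ s t' N := by
    intro t t' N h
    funext i
    unfold nF
    refine filter_congr fun p _ => ?_
    refine exists_congr fun j => and_congr_right fun hj => ?_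
    have h1 : t ≡ t' [ZMOD p] := h.of_dvd (Int.natCast_dvd_natCast.2
      (hj.trans (dvd_prod_of_mem _ (mem_univ j))))
    rw [jacobiSym.mod_left' (eval_mod (κ j 0) h1), jacobiSym.mod_left' (eval_mod (κ j i) h1)]
  have hPP : P3 cls s ⊆ P3 cls (fun j => s j * e j) := by
    intro p hp
    rw [mem_P3 cls T.s0] at hp
    rw [mem_P3 cls hse0]
    obtain ⟨h1, j, h2, h3⟩ := hp
    exact ⟨h1, j, h2, h3.trans (Dvd.intro _ rfl)⟩
  set G : ℤ → ℝ := fun t => (1 / 2) ^ (P3 cls s).card *
    ∑ N ∈ (P3 cls s).powerset, Φ s (nF cls κ s t N) with hG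
  have hG0 : ∀ t, 0 ≤ G t := fun t => mul_nonneg (by positivity) (sum_nonneg fun N _ => hΦ0 _ _)
  have hGmod : ∀ t t' : ℤ, t ≡ t' [ZMOD m] → G t = G t' := by
    intro t t' h
    simp only [hG]
    congr 1
    refine sum_congr rfl fun N _ => ?_
    rw [hmod t t' N h]
  have hR : RSum cls f κ Φ s = ∑ r ∈ Rs f s, G (r : ℤ) := rfl
  -- step 1
  have h1 : RSum cls f κ Φ (fun j => s j * e j) ≤
      b ^ n * ∑ r ∈ Rs f (fun j => s j * e j), G (r : ℤ) := by
    unfold RSum
    rw [mul_sum]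
    refine sum_le_sum fun r hr => ?_
    have h2 : ∀ N : Finset ℕ, Φ (fun j => s j * e j) (nF cls κ (fun j => s j * e j) (r : ℤ) N) ≤
        b ^ n * Φ s (nF cls κ s (r : ℤ) (N ∩ P3 cls s)) := by
      intro N
      have h3 := hΦ s e (nF cls κ (fun j => s j * e j) (r : ℤ) N) hT
      rw [h3.1, hnF] at h3
      exact h3.2
    calc ((1 : ℝ) / 2) ^ (P3 cls (fun j => s j * e j)).card *
          ∑ N ∈ (P3 cls (fun j => s j * e j)).powerset,
            Φ (fun j => s j * e j) (nF cls κ (fun j => s j * e j) (r : ℤ) N)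
        ≤ ((1 : ℝ) / 2) ^ (P3 cls (fun j => s j * e j)).card *
          ∑ N ∈ (P3 cls (fun j => s j * e j)).powerset,
            b ^ n * Φ s (nF cls κ s (r : ℤ) (N ∩ P3 cls s)) := by
          refine mul_le_mul_of_nonneg_left (sum_le_sum fun N _ => h2 N) (by positivity)
      _ = b ^ n * (((1 : ℝ) / 2) ^ (P3 cls (fun j => s j * e j)).card *
          ∑ N ∈ (P3 cls (fun j => s j * e j)).powerset,
            Φ s (nF cls κ s (r : ℤ) (N ∩ P3 cls s))) := by
          rw [← mul_sum]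
          ring
      _ = b ^ n * G (r : ℤ) := by
          rw [sum_inter hPP (fun N => Φ s (nF cls κ s (r : ℤ) N))]
  -- step 2
  have h3 : ∑ r ∈ Rs f (fun j => s j * e j), G (r : ℤ) ≤
      (c : ℝ) ^ n * ∑ r ∈ Rs f s, G (r : ℤ) := by
    have hmaps : ∀ r ∈ Rs f (fun j => s j * e j), r % m ∈ Rs f s := by
      intro r hr
      unfold Rs at hr ⊢
      rw [mem_filter] at hr ⊢
      refine ⟨mem_range.2 (Nat.mod_lt _ (Nat.pos_of_ne_zero hm0)), fun j => ?_⟩
      have h4 : (s j : ℤ) ∣ (f j).eval (r : ℤ) := by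
        refine Dvd.dvd.trans ?_ (hr.2 j)
        push_cast
        exact dvd_mul_right _ _
      have h5 : ((r % m : ℕ) : ℤ) ≡ (r : ℤ) [ZMOD (s j : ℕ)] :=
        (mod_self r m).of_dvd (Int.natCast_dvd_natCast.2 (dvd_prod_of_mem _ (mem_univ j)))
      exact (eval_mod (f j) h5).dvd_iff.2 h4
    have hval : ∀ r ∈ Rs f (fun j => s j * e j), G (r : ℤ) = G ((r % m : ℕ) : ℤ) := by
      intro r _
      exact (hGmod _ _ (mod_self r m)).symm
    rw [sum_congr rfl hval, ← sum_fiberwise_of_maps_to hmaps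
      (fun r => G ((r % m : ℕ) : ℤ))]
    rw [mul_sum]
    refine sum_le_sum fun r0 hr0 => ?_
    have h6 : ∑ r ∈ (Rs f (fun j => s j * e j)).filter (fun r => r % m = r0),
        G ((r % m : ℕ) : ℤ) =
        (((Rs f (fun j => s j * e j)).filter (fun r => r % m = r0)).card : ℝ) *
          G (r0 : ℤ) := by
      rw [sum_congr rfl (g := fun _ => G (r0 : ℤ)) ?_, sum_const, nsmul_eq_mul]
      intro r hr
      rw [(mem_filter.1 hr).2]
    rw [h6]
    refine mul_le_mul_of_nonneg_right ?_ (hG0 _)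
    have h7 := Pool.Agent.L7h8.RP.fiber f z c hρ e m T.sqm
      (fun p hp j hj => T.zp p hp j (hj.trans (dvd_mul_left _ _))) r0
    rw [T.card_e] at h7
    have h8 : ((Rs f (fun j => s j * e j)).filter (fun r => r % m = r0)).card ≤
        ((range (m * ∏ j, e j)).filter (fun r : ℕ => r % m = r0 ∧
          ∀ j, (e j : ℤ) ∣ (f j).eval (r : ℤ))).card := by
      refine card_le_card ?_
      intro r hr
      rw [mem_filter] at hr ⊢
      obtain ⟨hr, hr2⟩ := hr
      unfold Rs at hr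
      rw [mem_filter, hprod] at hr
      refine ⟨hr.1, hr2, fun j => ?_⟩
      refine Dvd.dvd.trans ?_ (hr.2 j)
      push_cast
      exact dvd_mul_left _ _
    exact_mod_cast h8.trans h7
  calc RSum cls f κ Φ (fun j => s j * e j) ≤ b ^ n *
        ∑ r ∈ Rs f (fun j => s j * e j), G (r : ℤ) := h1
    _ ≤ b ^ n * ((c : ℝ) ^ n * ∑ r ∈ Rs f s, G (r : ℤ)) :=
        mul_le_mul_of_nonneg_left h3 (by positivity)
    _ = (b * c) ^ n * RSum cls f κ Φ s := by
        rw [hR, mul_pow]; ring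

end Pool.Agent.L7h50.FD
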