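import Pool.Agent.L7h19.FD.Stm2
import Pool.Agent.L7h19.RP.Bez

/-!
# Project FD, part WHD: the hypotheses on the weights
-/

set_option autoImplicit false
set_option linter.unusedSectionVars false

namespace Pool.Agent.L7h50.FD

open Finset Polynomial Pool.Agent.W262.RK Pool.Agent.W307.RT Pool.Agent.L7h19.RP
open Pool.Agent.L7h19.FD
open Pool.Agent.L7h19.FT (mu S_UP2 S_UP02 S_SQ aP bP PSm)
open Pool.Agent.H474R2.PG (rho)

lemma sn_add (a b : ZMod 2) : sn (a + b) = sn a * sn b := by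
  revert a b
  decide

lemma ind_eq (a σ : ZMod 2) : (if a = σ then (1 : ℝ) else 0) = (1 + (sn σ : ℝ) * (sn a : ℝ)) / 2 := by
  have h : ∀ a σ : ZMod 2, (if a = σ then (2 : ℤ) else 0) = 1 + sn σ * sn a := by decide
  have h1 : ((if a = σ then (2 : ℤ) else 0 : ℤ) : ℝ) = ((1 + sn σ * sn a : ℤ) : ℝ) := by rw [h]
  push_cast at h1
  rw [← h1]
  split_ifs <;> norm_num

lemma ph_dc : ∀ (c : Fin 3) (n : Fin 3 → ZMod 2) (ε : ZMod 2),
    ph n ε (dc c.castSucc) (dc c.castSucc) =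
      if c = 0 then n 1 + n 2 + ε else if c = 1 then n 0 + n 2 else n 0 + n 1 := by
  decide

lemma zb_not (π : Pat) (i : Fin 3) : zb (fun i => !(π i)) i = zb π i + 1 := by
  unfold zb
  cases h : π i <;> simp [h] <;> decide

lemma ph_not (c : Fin 3) (π : Pat) (ε : ZMod 2) :
    ph (zb (fun i => !(π i))) ε (dc c.castSucc) (dc c.castSucc) =
      ph (zb π) ε (dc c.castSucc) (dc c.castSucc) := by
  rw [ph_dc, ph_dc]
  simp only [zb_not]
  have h : ∀ a b : ZMod 2, a + 1 + (b + 1) = a + b := by decide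
  split_ifs <;> simp only [h]

lemma pat_iff (x : Fin 3 → Prop) [DecidablePred x] (π : Pat) :
    (∀ i, (π i = true ↔ x i)) ↔ π = fun i => decide (x i) := by
  constructor
  · intro h
    funext i
    have := h i
    by_cases hx : x i
    · simp [hx, this.2 hx]
    · have h1 : ¬ (π i = true) := fun h2 => hx (this.1 h2)
      simp [hx, h1]
  · rintro rfl i
    simp

lemma pat_iff_not (x : Fin 3 → Prop) [DecidablePred x] (π : Pat) :
    (∀ i, (π i = true ↔ ¬ x i)) ↔ π = fun i => !(decide (x i)) := by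
  rw [pat_iff (fun i => ¬ x i)]
  constructor
  · rintro rfl
    funext i
    simp
  · rintro rfl
    funext i
    simp

variable {J : Type} [Fintype J] [DecidableEq J]

/-- the pattern at the root `ν`, class `3` -/
def PB (κ : J → Fin 3 → ℤ[X]) (j : J) (ν : ℤ) (p : ℕ) : Pat :=
  fun i => decide (jacobiSym ((κ j i).eval ν) p = -1)

/-- the pattern at the root `ν`, class `≠ 3` -/
def PC (κ : J → Fin 3 → ℤ[X]) (j : J) (ν : ℤ) (p : ℕ) : Pat :=
  fun i => if i = 0 then decide (jacobiSym ((κ j 0).eval ν) p = -1) else false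

lemma pc_iff (κ : J → Fin 3 → ℤ[X]) (j : J) (ν : ℤ) (p : ℕ) (π : Pat) :
    ((π 0 = true ↔ jacobiSym ((κ j 0).eval ν) p = -1) ∧ π 1 = false ∧ π 2 = false) ↔
      π = PC κ j ν p := by
  constructor
  · rintro ⟨h0, h1, h2⟩
    funext i
    unfold PC
    fin_cases i
    · by_cases hx : jacobiSym ((κ j 0).eval ν) p = -1
      · simp [hx, h0.2 hx]
      · have h3 : ¬ (π 0 = true) := fun h => hx (h0.1 h)
        simp [hx, h3]
    · simpa using h1
    · simpa using h2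
  · rintro rfl
    unfold PC
    simp

lemma sum_WP (cls : J → Fin 4) (f : J → ℤ[X]) (κ : J → Fin 3 → ℤ[X]) (c : ℕ) (j : J) (p : ℕ)
    (S : Pat → Prop) [DecidablePred S] :
    ∑ π ∈ univ.filter S, WP cls f κ c j π p = 1 / ((p : ℝ) - c) *
      ∑ ν ∈ (range p).filter (fun ν : ℕ => (p : ℤ) ∣ (f j).eval (ν : ℤ)),
        (if cls j = 3 then ((if S (PB κ j (ν : ℤ) p) then 1 else 0) +
          (if S (fun i => !(PB κ j (ν : ℤ) p i)) then 1 else 0)) / 2 else
          (if S (PC κ j (ν : ℤ) p) then 1 else 0)) := by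
  classical
  unfold WP
  rw [← mul_sum, sum_comm]
  congr 1
  refine sum_congr rfl fun ν _ => ?_
  by_cases h3 : cls j = 3
  · simp only [if_pos h3]
    rw [← sum_div, sum_add_distrib]
    congr 2
    · have h1 : ∀ π : Pat, (if ∀ i, (π i = true ↔ jacobiSym ((κ j i).eval (ν : ℤ)) p = -1)
          then (1 : ℝ) else 0) = if π = PB κ j (ν : ℤ) p then 1 else 0 := fun π =>
        if_congr (pat_iff (fun i => jacobiSym ((κ j i).eval (ν : ℤ)) p = -1) π) rfl rfl
      have h2 : ∑ π ∈ univ.filter S, (if π = PB κ j (ν : ℤ) p then (1 : ℝ) else 0) =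
          if S (PB κ j (ν : ℤ) p) then 1 else 0 := by
        rw [sum_ite_eq']
        exact if_congr (by simp) rfl rfl
      rw [← h2]
      exact sum_congr rfl fun π _ => (if_congr Iff.rfl rfl rfl).trans (h1 π)
    · have h1 : ∀ π : Pat, (if ∀ i, (π i = true ↔ ¬ jacobiSym ((κ j i).eval (ν : ℤ)) p = -1)
          then (1 : ℝ) else 0) = if π = (fun i => !(PB κ j (ν : ℤ) p i)) then 1 else 0 := fun π =>
        if_congr (pat_iff_not (fun i => jacobiSym ((κ j i).eval (ν : ℤ)) p = -1) π) rfl rfl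
      have h2 : ∑ π ∈ univ.filter S, (if π = (fun i => !(PB κ j (ν : ℤ) p i)) then (1 : ℝ) else 0) =
          if S (fun i => !(PB κ j (ν : ℤ) p i)) then 1 else 0 := by
        rw [sum_ite_eq']
        exact if_congr (by simp) rfl rfl
      rw [← h2]
      exact sum_congr rfl fun π _ => (if_congr Iff.rfl rfl rfl).trans (h1 π)
  · simp only [if_neg h3]
    have h1 : ∀ π : Pat, (if (π 0 = true ↔ jacobiSym ((κ j 0).eval (ν : ℤ)) p = -1) ∧
        π 1 = false ∧ π 2 = false then (1 : ℝ) else 0) =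
        if π = PC κ j (ν : ℤ) p then 1 else 0 := fun π =>
      if_congr (pc_iff κ j (ν : ℤ) p π) rfl rfl
    have h2 : ∑ π ∈ univ.filter S, (if π = PC κ j (ν : ℤ) p then (1 : ℝ) else 0) =
        if S (PC κ j (ν : ℤ) p) then 1 else 0 := by
      rw [sum_ite_eq']
      exact if_congr (by simp) rfl rfl
    rw [← h2]
    exact sum_congr rfl fun π _ => (if_congr Iff.rfl rfl rfl).trans (h1 π)

/-- the sum over all patterns -/
lemma sum_WP_univ (cls : J → Fin 4) (f : J → ℤ[X]) (κ : J → Fin 3 → ℤ[X]) (c : ℕ) (j : J) (p : ℕ) :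
    ∑ π, WP cls f κ c j π p = gaw (f j) 1 c p := by
  have h := sum_WP cls f κ c j p (fun _ => True)
  rw [filter_true] at h
  rw [h]
  unfold gaw rho
  congr 1
  rw [card_eq_sum_ones]
  push_cast
  refine sum_congr rfl fun ν _ => ?_
  split_ifs <;> norm_num

/-- the symbol as a sign -/
lemma jr_sn {a : ℤ} {p : ℕ} (h : jacobiSym a p = 1 ∨ jacobiSym a p = -1) :
    jacobiSym a p = sn (if decide (jacobiSym a p = -1) = true then 1 else 0) := by
  rcases h with h | h <;> rw [h] <;> decide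

lemma zb_PB (κ : J → Fin 3 → ℤ[X]) (j : J) (ν : ℤ) (p : ℕ) (i : Fin 3) (hp : p.Prime)
    (h : ¬ (p : ℤ) ∣ (κ j i).eval ν) :
    jacobiSym ((κ j i).eval ν) p = sn (zb (PB κ j ν p) i) := by
  have _ := Fact.mk hp
  refine jr_sn ?_
  have h1 : ((κ j i).eval ν).gcd p = 1 := by
    rw [Int.gcd_comm, ← Int.isCoprime_iff_gcd_eq_one]
    exact (Prime.coprime_iff_not_dvd (Nat.prime_iff_prime_int.1 hp)).2 h
  exact jacobiSym.eq_one_or_neg_one h1

lemma m4_sn {p : ℕ} (hp : p.Prime) (h2 : 2 < p) : ZMod.χ₄ (p : ZMod 4) = sn (m4 p) := by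
  have h3 : p % 2 = 1 := by
    rcases hp.eq_two_or_odd with h | h
    · omega
    · exact h
  unfold m4
  by_cases h4 : p % 4 = 3
  · rw [if_pos h4, ZMod.χ₄_nat_three_mod_four h4]
    decide
  · have h5 : p % 4 = 1 := by omega
    rw [if_neg h4, ZMod.χ₄_nat_one_mod_four h5]
    decide

lemma kc_sn (κ : J → Fin 3 → ℤ[X]) (j : J) (ν : ℤ) (p : ℕ) (hp : p.Prime) (h2 : 2 < p)
    (h : ∀ i, ¬ (p : ℤ) ∣ (κ j i).eval ν) (c : Fin 3) :
    jacobiSym ((kc c (κ j)).eval ν) p =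
      sn (ph (zb (PB κ j ν p)) (m4 p) (dc c.castSucc) (dc c.castSucc)) := by
  rw [ph_dc]
  have hodd : Odd p := hp.odd_of_ne_two (by omega)
  unfold kc
  split_ifs with h0 h1
  · rw [eval_neg, eval_mul, jacobiSym.neg _ hodd, jacobiSym.mul_left, zb_PB κ j ν p 1 hp (h 1),
      zb_PB κ j ν p 2 hp (h 2), sn_add, sn_add, m4_sn hp h2]
    ring
  · rw [eval_mul, jacobiSym.mul_left, zb_PB κ j ν p 0 hp (h 0), zb_PB κ j ν p 2 hp (h 2), sn_add]
  · rw [eval_mul, jacobiSym.mul_left, zb_PB κ j ν p 0 hp (h 0), zb_PB κ j ν p 1 hp (h 1), sn_add]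


/-- the sums of the weights with a given value of the form -/
lemma sw_eq (cls : J → Fin 4) (f : J → ℤ[X]) (κ : J → Fin 3 → ℤ[X]) (c : ℕ) (j : J) (p : ℕ)
    (hp : p.Prime) (h2 : 2 < p)
    (h : ∀ ν : ℤ, (p : ℤ) ∣ (f j).eval ν → ∀ i, ¬ (p : ℤ) ∣ (κ j i).eval ν)
    (c' : Fin 3) (hc : cls j = c'.castSucc ∨ cls j = 3) (σ : ZMod 2) :
    sw (WP cls f κ c) cls c' σ j p = (gaw (f j) 1 c p +
      (sn σ : ℝ) * bw (f j) (if cls j = 3 then kc c' (κ j) else κ j 0) 1 c p) / 2 := by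
  unfold sw
  rw [sum_WP cls f κ c j p
    (fun π => dg (cls j) (zb π) (m4 p) (dc c'.castSucc) (dc c'.castSucc) = σ)]
  unfold gaw bw rho
  have e1 : ((1 : ℝ) / ((p : ℝ) - c) *
      (((range p).filter (fun ν : ℕ => (p : ℤ) ∣ (f j).eval (ν : ℤ))).card : ℝ) +
      (sn σ : ℝ) * (1 / ((p : ℝ) - c) *
        ∑ ν ∈ (range p).filter (fun ν : ℕ => (p : ℤ) ∣ (f j).eval (ν : ℤ)),
          Jr ((if cls j = 3 then kc c' (κ j) else κ j 0).eval (ν : ℤ)) p)) / 2 =
      1 / ((p : ℝ) - c) *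
        ∑ ν ∈ (range p).filter (fun ν : ℕ => (p : ℤ) ∣ (f j).eval (ν : ℤ)),
          (1 + (sn σ : ℝ) *
            Jr ((if cls j = 3 then kc c' (κ j) else κ j 0).eval (ν : ℤ)) p) / 2 := by
    rw [← sum_div, sum_add_distrib, ← mul_sum, card_eq_sum_ones]
    push_cast
    ring
  rw [e1]
  congr 1
  refine sum_congr rfl fun ν hν => ?_
  have hν' := h (ν : ℤ) (mem_filter.1 hν).2
  by_cases h3 : cls j = 3
  · simp only [if_pos h3]
    have e2 : ∀ π : Pat, dg (cls j) (zb π) (m4 p) (dc c'.castSucc) (dc c'.castSucc) =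
        ph (zb π) (m4 p) (dc c'.castSucc) (dc c'.castSucc) := fun π => by
      unfold dg
      rw [if_pos h3]
    rw [e2, e2, ph_not, ind_eq]
    unfold Jr
    rw [kc_sn κ j ν p hp h2 hν' c']
    ring
  · simp only [if_neg h3]
    have hdc : dc c'.castSucc ≠ 0 :=
      (by decide : ∀ a : Fin 3, dc a.castSucc ≠ 0) c'
    have e2 : ∀ π : Pat, dg (cls j) (zb π) (m4 p) (dc c'.castSucc) (dc c'.castSucc) =
        zb π 0 := fun π => by
      unfold dg
      rw [if_neg h3, if_pos ⟨hdc, hdc⟩]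
    have e3 : zb (PC κ j (ν : ℤ) p) 0 = zb (PB κ j (ν : ℤ) p) 0 := by
      unfold zb PC PB
      simp
    rw [e2, ind_eq, e3]
    unfold Jr
    rw [zb_PB κ j ν p 0 hp (hν' 0)]

lemma two_ind : ∀ π B : Pat, (if π = B then (4 : ℤ) else 0) +
    (if π = (fun i => !(B i)) then 4 else 0) =
    1 + sn (zb π 0) * sn (zb π 1) * (sn (zb B 0) * sn (zb B 1)) +
      sn (zb π 0) * sn (zb π 2) * (sn (zb B 0) * sn (zb B 2)) +
      sn (zb π 1) * sn (zb π 2) * (sn (zb B 1) * sn (zb B 2)) := by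
  decide

/-- the weights of the class `3` -/
lemma WP_three (cls : J → Fin 4) (f : J → ℤ[X]) (κ : J → Fin 3 → ℤ[X]) (c : ℕ) (j : J) (p : ℕ)
    (hp : p.Prime) (h : ∀ ν : ℤ, (p : ℤ) ∣ (f j).eval ν → ∀ i, ¬ (p : ℤ) ∣ (κ j i).eval ν)
    (h3 : cls j = 3) (π : Pat) :
    WP cls f κ c j π p = (gaw (f j) 1 c p +
      (sn (zb π 0) * sn (zb π 1) : ℤ) * bw (f j) (κ j 0 * κ j 1) 1 c p +
      (sn (zb π 0) * sn (zb π 2) : ℤ) * bw (f j) (κ j 0 * κ j 2) 1 c p +
      (sn (zb π 1) * sn (zb π 2) : ℤ) * bw (f j) (κ j 1 * κ j 2) 1 c p) / 8 := by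
  classical
  have hW : WP cls f κ c j π p = 1 / ((p : ℝ) - c) *
      ∑ ν ∈ (range p).filter (fun ν : ℕ => (p : ℤ) ∣ (f j).eval (ν : ℤ)),
        ((if π = PB κ j (ν : ℤ) p then (1 : ℝ) else 0) +
          (if π = (fun i => !(PB κ j (ν : ℤ) p i)) then 1 else 0)) / 2 := by
    unfold WP
    congr 1
    refine sum_congr rfl fun ν _ => ?_
    simp only [if_pos h3]
    congr 2
    · exact if_congr (pat_iff (fun i => jacobiSym ((κ j i).eval (ν : ℤ)) p = -1) π) rfl rfl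
    · exact if_congr (pat_iff_not (fun i => jacobiSym ((κ j i).eval (ν : ℤ)) p = -1) π) rfl rfl
  rw [hW]
  unfold gaw bw rho
  have e1 : ∀ (R : Finset ℕ) (x a b d : ℝ) (F1 F2 F3 : ℕ → ℝ),
      (x * (R.card : ℝ) + a * (x * ∑ ν ∈ R, F1 ν) + b * (x * ∑ ν ∈ R, F2 ν) +
        d * (x * ∑ ν ∈ R, F3 ν)) / 8 =
      x * ∑ ν ∈ R, (1 + a * F1 ν + b * F2 ν + d * F3 ν) / 8 := by
    intro R x a b d F1 F2 F3
    rw [← sum_div, sum_add_distrib, sum_add_distrib, sum_add_distrib, ← mul_sum, ← mul_sum,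
      ← mul_sum, card_eq_sum_ones]
    push_cast
    ring
  rw [e1]
  congr 1
  refine sum_congr rfl fun ν hν => ?_
  have hν' := h (ν : ℤ) (mem_filter.1 hν).2
  unfold Jr
  rw [eval_mul, eval_mul, eval_mul, jacobiSym.mul_left, jacobiSym.mul_left, jacobiSym.mul_left,
    zb_PB κ j ν p 0 hp (hν' 0), zb_PB κ j ν p 1 hp (hν' 1), zb_PB κ j ν p 2 hp (hν' 2)]
  have e2 := two_ind π (PB κ j (ν : ℤ) p)
  have e3 : (((if π = PB κ j (ν : ℤ) p then (4 : ℤ) else 0) +
    (if π = (fun i => !(PB κ j (ν : ℤ) p i)) then 4 else 0) : ℤ) : ℝ) =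
    4 * ((if π = PB κ j (ν : ℤ) p then (1 : ℝ) else 0) +
      (if π = (fun i => !(PB κ j (ν : ℤ) p i)) then 1 else 0)) := by
    split_ifs <;> norm_num
  rw [e2] at e3
  push_cast at e3 ⊢
  linarith

/-- the weights of the other classes -/
lemma WP_ne (cls : J → Fin 4) (f : J → ℤ[X]) (κ : J → Fin 3 → ℤ[X]) (c : ℕ) (j : J) (p : ℕ)
    (hp : p.Prime) (h : ∀ ν : ℤ, (p : ℤ) ∣ (f j).eval ν → ∀ i, ¬ (p : ℤ) ∣ (κ j i).eval ν)
    (h3 : cls j ≠ 3) (π : Pat) :
    WP cls f κ c j π p = if π 1 = false ∧ π 2 = false then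
      (gaw (f j) 1 c p + (sn (zb π 0) : ℤ) * bw (f j) (κ j 0) 1 c p) / 2 else 0 := by
  classical
  unfold WP
  by_cases h12 : π 1 = false ∧ π 2 = false
  · rw [if_pos h12]
    unfold gaw bw rho
    have e1 : ∀ (R : Finset ℕ) (x a : ℝ) (F1 : ℕ → ℝ),
        (x * (R.card : ℝ) + a * (x * ∑ ν ∈ R, F1 ν)) / 2 = x * ∑ ν ∈ R, (1 + a * F1 ν) / 2 := by
      intro R x a F1
      rw [← sum_div, sum_add_distrib, ← mul_sum, card_eq_sum_ones]
      push_cast
      ring
    rw [e1]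
    congr 1
    refine sum_congr rfl fun ν hν => ?_
    have hν' := h (ν : ℤ) (mem_filter.1 hν).2
    simp only [if_neg h3]
    unfold Jr
    have e2 : (if (π 0 = true ↔ jacobiSym ((κ j 0).eval (ν : ℤ)) p = -1) ∧
        π 1 = false ∧ π 2 = false then (1 : ℝ) else 0) =
        if zb π 0 = zb (PB κ j (ν : ℤ) p) 0 then 1 else 0 := by
      refine if_congr ?_ rfl rfl
      unfold zb PB
      by_cases hx : jacobiSym ((κ j 0).eval (ν : ℤ)) p = -1 <;> cases hπ : π 0 <;>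
        simp [hx, h12.1, h12.2]
    refine Eq.trans (Eq.trans (if_congr Iff.rfl rfl rfl) e2) ?_
    rw [ind_eq, zb_PB κ j ν p 0 hp (hν' 0)]
    ring
  · rw [if_neg h12]
    have e1 : ∀ ν ∈ (range p).filter (fun ν : ℕ => (p : ℤ) ∣ (f j).eval (ν : ℤ)),
        (if (π 0 = true ↔ jacobiSym ((κ j 0).eval (ν : ℤ)) p = -1) ∧
          π 1 = false ∧ π 2 = false then (1 : ℝ) else 0) = 0 := fun ν _ =>
      if_neg fun hh => h12 hh.2
    simp only [if_neg h3]
    rw [sum_eq_zero fun ν hν => (if_congr Iff.rfl rfl rfl).trans (e1 ν hν), mul_zero]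

lemma sn_pm (a : ZMod 2) : sn a = 1 ∨ sn a = -1 := by
  revert a
  decide

theorem s_WHD (hU : S_UP2) (hU0 : S_UP02) (hSQ : S_SQ) : S_WHD := by
  intro J _ _ cls f κ c hf hd hκ
  classical
  let kk : J × Fin 5 → ℤ[X] := fun x => if x.2 = 0 then κ x.1 0 else if x.2 = 1 then kc 0 (κ x.1)
    else if x.2 = 2 then kc 1 (κ x.1) else if x.2 = 3 then kc 2 (κ x.1) else κ x.1 1 * κ x.1 2
  have hmul : ∀ (j : J) (a b : Fin 3), ¬ f j ∣ κ j a * κ j b := fun j a b h =>
    ((hf j).prime.dvd_or_dvd h).elim (hκ j a) (hκ j b)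
  have hkc : ∀ (j : J) (c' : Fin 3), ¬ f j ∣ kc c' (κ j) := by
    intro j c'
    unfold kc
    split_ifs
    · rw [dvd_neg]
      exact hmul j 1 2
    · exact hmul j 0 2
    · exact hmul j 0 1
  have hnd : ∀ x : J × Fin 5, ¬ f x.1 ∣ kk x := by
    rintro ⟨j, i⟩
    show ¬ f j ∣ (if i = 0 then κ j 0 else if i = 1 then kc 0 (κ j)
      else if i = 2 then kc 1 (κ j) else if i = 3 then kc 2 (κ j) else κ j 1 * κ j 2)
    split_ifs
    · exact hκ j 0
    · exact hkc j 0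
    · exact hkc j 1
    · exact hkc j 2
    · exact hmul j 1 2
  obtain ⟨G, z1, h1, h2, h3⟩ := Pool.Agent.L7h19.FT.wh hU hU0 hSQ (fun x : J × Fin 5 => f x.1) kk
    (fun x => hf x.1) (fun x => hd x.1) hnd c
  choose B hB using fun x : J × Fin 3 => large_nd (hf x.1) (hd x.1) (hκ x.1 x.2)
  have hBs : ∀ x, B x ≤ ∑ x, B x := fun x =>
    single_le_sum (f := B) (fun _ _ => Nat.zero_le _) (mem_univ x)
  have hnv : ∀ (z p : ℕ), z1 + c + 2 + ∑ x, B x ≤ z → z < p → ∀ (j : J) (ν : ℤ),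
      (p : ℤ) ∣ (f j).eval ν → ∀ i, ¬ (p : ℤ) ∣ (κ j i).eval ν := by
    intro z p hz hzp j ν hν i
    have := hBs (j, i)
    exact hB (j, i) p (by omega) ν hν
  have hgaw : ∀ (j : J) (i : Fin 5) (p : ℕ), gaw (f j) 1 c p =
      aP (fun x : J × Fin 5 => f x.1) kk c (j, i) p +
        bP (fun x : J × Fin 5 => f x.1) kk c (j, i) p := by
    intro j i p
    unfold aP bP
    ring
  have hbw : ∀ (j : J) (i : Fin 5) (p : ℕ), bw (f j) (kk (j, i)) 1 c p =
      aP (fun x : J × Fin 5 => f x.1) kk c (j, i) p -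
        bP (fun x : J × Fin 5 => f x.1) kk c (j, i) p := by
    intro j i p
    unfold aP bP
    ring
  refine ⟨G, z1 + c + 2 + ∑ x, B x, ?_, ?_, ?_, ?_⟩
  · intro z hz p hp hzp j
    have hcp : (0 : ℝ) < (p : ℝ) - c := by
      have : (c : ℝ) < p := by exact_mod_cast (by omega : c < p)
      linarith
    refine ⟨fun π => ?_, ?_⟩
    · unfold WP
      refine mul_nonneg (by positivity) (sum_nonneg fun ν _ => ?_)
      split_ifs <;> norm_num
    · rw [sum_WP_univ, hgaw j 0]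
      exact (h1 z (by omega) p hp hzp (j, 0)).2.2
  · intro z hz j
    obtain ⟨C, hC⟩ := h2 z (by omega) (j, 0)
    refine ⟨2 * C, fun y hy => ?_⟩
    obtain ⟨e1, e2⟩ := hC y hy
    have e3 : ∑ p ∈ PS z y, ∑ π, WP cls f κ c j π p =
        ∑ p ∈ PS z y, aP (fun x : J × Fin 5 => f x.1) kk c (j, 0) p +
          ∑ p ∈ PS z y, bP (fun x : J × Fin 5 => f x.1) kk c (j, 0) p := by
      rw [← sum_add_distrib]
      exact sum_congr rfl fun p _ => by rw [sum_WP_univ, hgaw j 0]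
    rw [e3]
    linarith
  · intro z hz c' j hc
    -- the index
    have hx : ∃ i : Fin 5, kk (j, i) = if cls j = 3 then kc c' (κ j) else κ j 0 := by
      by_cases h3' : cls j = 3
      · simp only [if_pos h3']
        fin_cases c'
        · exact ⟨1, rfl⟩
        · exact ⟨2, rfl⟩
        · exact ⟨3, rfl⟩
      · simp only [if_neg h3']
        exact ⟨0, rfl⟩
    obtain ⟨i, hi⟩ := hx
    obtain ⟨C, hC⟩ := h2 z (by omega) (j, i)
    refine ⟨C, fun y hy => ?_⟩
    obtain ⟨e1, e2⟩ := hC y hy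
    have hmu : muD cls f κ c' j = mu (f j) (kk (j, i)) := by
      unfold muD
      rw [hi]
      split_ifs <;> rfl
    have hA : ∀ p ∈ PS z y, sw (WP cls f κ c) cls c' 0 j p =
        aP (fun x : J × Fin 5 => f x.1) kk c (j, i) p := by
      intro p hp
      obtain ⟨hp1, hp2⟩ := PSm hp
      rw [sw_eq cls f κ c j p hp1 (by omega) (hnv z p hz hp2 j) c' hc 0, ← hi]
      have : (sn 0 : ℤ) = 1 := by decide
      rw [this]
      unfold aP
      push_cast
      ring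
    have hBb : ∀ p ∈ PS z y, sw (WP cls f κ c) cls c' 1 j p =
        bP (fun x : J × Fin 5 => f x.1) kk c (j, i) p := by
      intro p hp
      obtain ⟨hp1, hp2⟩ := PSm hp
      rw [sw_eq cls f κ c j p hp1 (by omega) (hnv z p hz hp2 j) c' hc 1, ← hi]
      have : (sn 1 : ℤ) = -1 := by decide
      rw [this]
      unfold bP
      push_cast
      ring
    rw [sum_congr rfl hA, sum_congr rfl hBb, hmu]
    exact ⟨e1, e2⟩
  · intro j π ε hε
    choose z0 hz0 using fun i : Fin 5 => h3 (j, i) ε hε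
    have hzs : ∀ i, z0 i ≤ ∑ i, z0 i := fun i =>
      single_le_sum (f := z0) (fun _ _ => Nat.zero_le _) (mem_univ i)
    refine ⟨z1 + c + 2 + ∑ x, B x + ∑ i, z0 i, fun z hz => ?_⟩
    choose C hC using fun i : Fin 5 => hz0 i z (by have := hzs i; omega)
    have hCs : ∀ i, C i ≤ ∑ i, |C i| := fun i => (le_abs_self _).trans
      (single_le_sum (f := fun i => |C i|) (fun _ _ => abs_nonneg _) (mem_univ i))
    have hC0 : 0 ≤ ∑ i, |C i| := sum_nonneg fun _ _ => abs_nonneg _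
    refine ⟨∑ i, |C i|, fun y r t hy hr hrs hrp => ?_⟩
    set M : ℝ := ε * Real.log r + ∑ i, |C i| with hM
    have hlog : 0 ≤ Real.log r := Real.log_natCast_nonneg r
    have hM0 : 0 ≤ M := by positivity
    -- the character sums
    set TA : Fin 5 → ℝ := fun i => ∑ p ∈ PS z y,
      aP (fun x : J × Fin 5 => f x.1) kk c (j, i) p * (Jr p r * x4 t p) with hTA
    set TB : Fin 5 → ℝ := fun i => ∑ p ∈ PS z y,
      bP (fun x : J × Fin 5 => f x.1) kk c (j, i) p * (Jr p r * x4 t p) with hTB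
    have hT : ∀ i, |TA i| ≤ M ∧ |TB i| ≤ M := by
      intro i
      obtain ⟨e1, e2⟩ := hC i y r t hy hr hrs hrp
      have := hCs i
      exact ⟨e1.trans (by linarith), e2.trans (by linarith)⟩
    have k0 : κ j 0 = kk (j, 0) := rfl
    have k1 : κ j 0 * κ j 1 = kk (j, 3) := rfl
    have k2 : κ j 0 * κ j 2 = kk (j, 2) := rfl
    have k4 : κ j 1 * κ j 2 = kk (j, 4) := rfl
    have b0 := hT 0
    have b2 := hT 2
    have b3 := hT 3
    have b4 := hT 4
    rw [abs_le, abs_le] at b0 b2 b3 b4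
    by_cases h3' : cls j = 3
    · have e1 : ∑ p ∈ PS z y, WP cls f κ c j π p * (Jr p r * x4 t p) =
          (TA 0 + TB 0 + (sn (zb π 0) * sn (zb π 1) : ℤ) * (TA 3 - TB 3) +
            (sn (zb π 0) * sn (zb π 2) : ℤ) * (TA 2 - TB 2) +
            (sn (zb π 1) * sn (zb π 2) : ℤ) * (TA 4 - TB 4)) / 8 := by
        rw [hTA, hTB]
        dsimp only
        rw [← sum_add_distrib, ← sum_sub_distrib, ← sum_sub_distrib, ← sum_sub_distrib, mul_sum,
          mul_sum, mul_sum, ← sum_add_distrib, ← sum_add_distrib, ← sum_add_distrib, sum_div]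
        refine sum_congr rfl fun p hp => ?_
        obtain ⟨hp1, hp2⟩ := PSm hp
        rw [WP_three cls f κ c j p hp1 (hnv z p (by omega) hp2 j) h3' π, hgaw j 0, k1, k2, k4,
          hbw j 3, hbw j 2, hbw j 4]
        ring
      rw [e1]
      have s1 : ((sn (zb π 0) * sn (zb π 1) : ℤ) : ℝ) = 1 ∨
          ((sn (zb π 0) * sn (zb π 1) : ℤ) : ℝ) = -1 := by
        rcases sn_pm (zb π 0) with h | h <;> rcases sn_pm (zb π 1) with h' | h' <;> rw [h, h'] <;>
          norm_num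
      have s2 : ((sn (zb π 0) * sn (zb π 2) : ℤ) : ℝ) = 1 ∨
          ((sn (zb π 0) * sn (zb π 2) : ℤ) : ℝ) = -1 := by
        rcases sn_pm (zb π 0) with h | h <;> rcases sn_pm (zb π 2) with h' | h' <;> rw [h, h'] <;>
          norm_num
      have s3 : ((sn (zb π 1) * sn (zb π 2) : ℤ) : ℝ) = 1 ∨
          ((sn (zb π 1) * sn (zb π 2) : ℤ) : ℝ) = -1 := by
        rcases sn_pm (zb π 1) with h | h <;> rcases sn_pm (zb π 2) with h' | h' <;> rw [h, h'] <;>
          norm_num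
      rw [abs_le]
      rcases s1 with s1 | s1 <;> rcases s2 with s2 | s2 <;> rcases s3 with s3 | s3 <;>
        rw [s1, s2, s3] <;> constructor <;>
        linarith [b0.1.1, b0.1.2, b0.2.1, b0.2.2, b2.1.1, b2.1.2, b2.2.1, b2.2.2, b3.1.1, b3.1.2,
          b3.2.1, b3.2.2, b4.1.1, b4.1.2, b4.2.1, b4.2.2]
    · by_cases h12 : π 1 = false ∧ π 2 = false
      · have e1 : ∑ p ∈ PS z y, WP cls f κ c j π p * (Jr p r * x4 t p) =
            (TA 0 + TB 0 + (sn (zb π 0) : ℤ) * (TA 0 - TB 0)) / 2 := by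
          rw [hTA, hTB]
          dsimp only
          rw [← sum_add_distrib, ← sum_sub_distrib, mul_sum, ← sum_add_distrib, sum_div]
          refine sum_congr rfl fun p hp => ?_
          obtain ⟨hp1, hp2⟩ := PSm hp
          rw [WP_ne cls f κ c j p hp1 (hnv z p (by omega) hp2 j) h3' π, if_pos h12, hgaw j 0,
            k0, hbw j 0]
          ring
        rw [e1, abs_le]
        have s1 : ((sn (zb π 0) : ℤ) : ℝ) = 1 ∨ ((sn (zb π 0) : ℤ) : ℝ) = -1 := by
          rcases sn_pm (zb π 0) with h | h <;> rw [h] <;> norm_num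
        rcases s1 with s1 | s1 <;> rw [s1] <;> constructor <;>
          linarith [b0.1.1, b0.1.2, b0.2.1, b0.2.2]
      · have e1 : ∑ p ∈ PS z y, WP cls f κ c j π p * (Jr p r * x4 t p) = 0 := by
          refine sum_eq_zero fun p hp => ?_
          obtain ⟨hp1, hp2⟩ := PSm hp
          rw [WP_ne cls f κ c j p hp1 (hnv z p (by omega) hp2 j) h3' π, if_neg h12, zero_mul]
        rw [e1, abs_zero]
        exact hM0

end Pool.Agent.L7h50.FD
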